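import Pool.Agent.Lib.IDX29.Fam

/-! The smooth Koszul trick for skew operators on spaces with a semi-definite product. -/

open Set Module Metric UniformSpace Filter Topology
open scoped InnerProductSpace

noncomputable section

namespace Pool.Agent.Lib.IDX29

section one

variable {V V' : Type} [SeminormedAddCommGroup V] [InnerProductSpace ℂ V] [SeminormedAddCommGroup V']
  [InnerProductSpace ℂ V']

/-- Equality up to an element of norm zero. -/
def Eqv (a b : V) : Prop := ∀ y, ⟪y, a⟫_ℂ = ⟪y, b⟫_ℂ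

/-- Weak solutions are strong solutions. -/
def WS (D : V →ₗ[ℂ] V) : Prop := ∀ u f : Completion V,
  (∀ w : V, ⟪u, (D w : Completion V)⟫_ℂ = -⟪f, (w : Completion V)⟫_ℂ) →
    ∀ d > 0, ∃ w : V, ‖u - w‖ < d ∧ ‖f - (D w : V)‖ < d

/-- The unit ball of the graph norm is totally bounded. -/
def RL (D : V →ₗ[ℂ] V) : Prop := TotallyBounded {w : V | ‖w‖ ≤ 1 ∧ ‖D w‖ ≤ 1}

/-- An odd skew operator of elliptic type. -/
structure Dk (D e : V →ₗ[ℂ] V) : Prop where
  sk : ∀ x y, ⟪D x, y⟫_ℂ = -⟪x, D y⟫_ℂ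
  ws : WS D
  rl : RL D
  sy : ∀ x y, ⟪e x, y⟫_ℂ = ⟪x, e y⟫_ℂ
  sq : ∀ x, Eqv (e (e x)) x
  od : ∀ x, Eqv (e (D x)) (-D (e x))

/-- The weak graph of `i D`. -/
def Gr (D : V →ₗ[ℂ] V) : Submodule ℂ (Completion V × Completion V) where
  carrier := {p | ∀ w : V, ⟪p.2, (w : Completion V)⟫_ℂ = Complex.I * ⟪p.1, (D w : Completion V)⟫_ℂ}
  zero_mem' := fun w => by simp
  add_mem' := fun ha hb w => by
    rw [Prod.snd_add, Prod.fst_add, inner_add_left, inner_add_left, ha, hb, mul_add]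
  smul_mem' := fun c _ ha w => by
    rw [Prod.smul_snd, Prod.smul_fst, inner_smul_left, inner_smul_left, ha]
    ring

open Classical in
/-- The extension of a contraction to the completions. -/
def ex (s : V →ₗ[ℂ] V') : Completion V →L[ℂ] Completion V' :=
  if h : ∀ x, ‖s x‖ ≤ 1 * ‖x‖ then (s.mkContinuous 1 h).completion else 0

/-- The index. -/
def idx (D e : V →ₗ[ℂ] V) : ℤ := ind (Gr D) (ex e)

theorem ex_coe {s : V →ₗ[ℂ] V'} (h : ∀ x, ‖s x‖ ≤ 1 * ‖x‖) (x : V) : ex s x = (s x : V') := by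
  rw [ex, dif_pos h, ContinuousLinearMap.completion_apply_coe]
  rfl

theorem Eqv.nrm {a b : V} (h : Eqv a b) : ‖a - b‖ = 0 := by
  have : ⟪a - b, a - b⟫_ℂ = 0 := by rw [inner_sub_right, h, sub_self]
  rw [@norm_eq_sqrt_re_inner ℂ, this]
  simp

theorem Eqv.coe {a b : V} (h : Eqv a b) : (a : Completion V) = b := by
  rw [← sub_eq_zero, ← Completion.coe_sub, ← norm_eq_zero, Completion.norm_coe, h.nrm]

theorem rl_seq {D : V →ₗ[ℂ] V} (h : ∀ w : ℕ → V, (∀ k, ‖w k‖ ≤ 1 ∧ ‖D (w k)‖ ≤ 1) →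
    ∀ d > 0, ∃ k l, k < l ∧ ‖w k - w l‖ < d) : RL D := by
  refine totallyBounded_of_forall_isSymm fun U hU _ => ?_
  by_contra! hc
  obtain ⟨d, d0, hd⟩ := Metric.mem_uniformity_dist.1 hU
  obtain ⟨w, h1⟩ := seq_of_forall_finite_exists
    (P := fun x t => (‖x‖ ≤ 1 ∧ ‖D x‖ ≤ 1) ∧ ∀ y ∈ t, d ≤ ‖y - x‖) fun t ht => by
      obtain ⟨x, x1, x2⟩ := not_subset.1 (hc t ht)
      refine ⟨x, x1, fun y hy => le_of_not_gt fun hl => x2 (mem_biUnion hy ?_)⟩
      exact hd (by rwa [dist_eq_norm])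
  obtain ⟨k, l, kl, h2⟩ := h w (fun k => (h1 k).1) d d0
  exact ((h1 l).2 _ ⟨k, kl, rfl⟩).not_gt h2

variable {D e : V →ₗ[ℂ] V}

theorem Dk.nrm (h : Dk D e) (x : V) : ‖e x‖ = ‖x‖ := by
  rw [@norm_eq_sqrt_re_inner ℂ, h.sy, h.sq, ← norm_eq_sqrt_re_inner]

theorem Dk.exc (h : Dk D e) (x : V) : ex e x = (e x : V) :=
  ex_coe (fun x => by rw [h.nrm, one_mul]) x

theorem Dk.mem (h : Dk D e) (w : V) : ((w : Completion V), Complex.I • (D w : Completion V)) ∈ Gr D :=
  fun v => by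
    simp only [inner_smul_left, Completion.inner_coe, h.sk, Complex.conj_I]
    ring

theorem Dk.app (h : Dk D e) {u f : Completion V} (hu : (u, f) ∈ Gr D) :
    ∃ w : ℕ → V, Tendsto (fun k => (w k : Completion V)) atTop (𝓝 u) ∧
      Tendsto (fun k => Complex.I • (D (w k) : Completion V)) atTop (𝓝 f) := by
  have h1 := h.ws u (-Complex.I • f) fun w => by
    have := hu w
    rw [inner_smul_left, this]
    simp [← mul_assoc]
  choose w w1 w2 using fun k : ℕ => h1 (1 / ((k : ℝ) + 1)) (by positivity)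
  have t := tendsto_one_div_add_atTop_nhds_zero_nat (𝕜 := ℝ)
  refine ⟨w, tendsto_iff_norm_sub_tendsto_zero.2 (squeeze_zero (fun _ => norm_nonneg _)
    (fun k => by rw [norm_sub_rev]; exact (w1 k).le) t), ?_⟩
  have : Tendsto (fun k => (D (w k) : Completion V)) atTop (𝓝 (-Complex.I • f)) :=
    tendsto_iff_norm_sub_tendsto_zero.2 (squeeze_zero (fun _ => norm_nonneg _)
      (fun k => by rw [norm_sub_rev]; exact (w2 k).le) t)
  simpa [smul_smul] using this.const_smul Complex.I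

theorem Dk.iv (h : Dk D e) : Iv (ex e) := by
  refine ⟨fun x y => ?_, fun x => ?_⟩
  · refine Completion.induction_on₂ x y (isClosed_eq (by fun_prop) (by fun_prop)) fun a b => ?_
    rw [h.exc, h.exc, Completion.inner_coe, Completion.inner_coe, h.sy]
  · refine Completion.induction_on x (isClosed_eq (by fun_prop) (by fun_prop)) fun a => ?_
    rw [h.exc, h.exc, (h.sq a).coe]

theorem Dk.odd (h : Dk D e) : Od (Gr D) (ex e) := by
  refine ⟨fun u f => ⟨fun hu v g hv => ?_, fun hu w => ?_⟩, ?_, fun u f hu w => ?_⟩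
  · obtain ⟨w, w1, w2⟩ := h.app hv
    refine tendsto_nhds_unique (tendsto_const_nhds.inner w1) ((tendsto_const_nhds.inner w2).congr ?_)
    exact fun k => by rw [inner_smul_right]; exact (hu _).symm
  · rw [hu _ _ (h.mem w), inner_smul_right]
  · have h1 := ((h.rl.image (Completion.uniformContinuous_coe V)).image
      (uniformContinuous_const_smul (2 : ℂ))).closure
    refine h1.subset ?_
    rintro u ⟨f, hu, u1, f1⟩
    obtain ⟨w, w1, w2⟩ := h.app hu
    refine mem_closure_of_tendsto w1 ?_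
    filter_upwards [w1.norm.eventually (gt_mem_nhds (u1.trans_lt one_lt_two)),
      w2.norm.eventually (gt_mem_nhds (f1.trans_lt one_lt_two))] with k k1 k2
    rw [norm_smul, Complex.norm_I, one_mul, Completion.norm_coe] at k2
    rw [Completion.norm_coe] at k1
    refine ⟨_, ⟨(2 : ℂ)⁻¹ • w k, ⟨?_, ?_⟩, rfl⟩, ?_⟩
    · rw [norm_smul]
      norm_num
      linarith
    · rw [map_smul, norm_smul]
      norm_num
      linarith
    · simp [Completion.coe_smul, smul_smul]
  · change ⟪-ex e f, _⟫_ℂ = Complex.I * ⟪ex e u, _⟫_ℂ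
    rw [inner_neg_left, h.iv.sy, h.iv.sy, h.exc, h.exc, hu, (h.od w).coe, Completion.coe_neg,
      inner_neg_right, mul_neg]

/-- A non-zero harmonic element gives an approximate kernel. -/
theorem Dk.near (h : Dk D e) (h0 : idx D e ≠ 0) {d : ℝ} (hd : 0 < d) :
    ∃ w : V, ‖w‖ = 1 ∧ ‖D w‖ < d := by
  obtain ⟨u, hu, u0⟩ : ∃ u, (u, 0) ∈ Gr D ∧ u ≠ 0 := by
    by_contra! hc
    have : ∀ s, Hm (Gr D) (ex e) s = ⊥ := fun s => eq_bot_iff.2 fun u hu => hc u hu.1
    exact h0 (by rw [idx, ind, this, this, sub_self])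
  obtain ⟨w, w1, w2⟩ := h.app hu
  have n0 := norm_pos_iff.2 u0
  have t := w2.norm.div w1.norm n0.ne'
  rw [norm_zero, zero_div] at t
  obtain ⟨k, k1, k2⟩ := ((w1.norm.eventually (lt_mem_nhds n0)).and (t.eventually (gt_mem_nhds hd))).exists
  simp only [Pi.div_apply, norm_smul, Complex.norm_I, one_mul, Completion.norm_coe] at k1 k2
  refine ⟨((‖w k‖⁻¹ : ℝ) : ℂ) • w k, ?_, ?_⟩
  · rw [norm_smul, Complex.norm_real, norm_inv, norm_norm, inv_mul_cancel₀ k1.ne']
  · rwa [map_smul, norm_smul, Complex.norm_real, norm_inv, norm_norm, ← div_eq_inv_mul]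

/-- `i` parametrises the harmonic elements of parity `sg`. -/
structure Par (D e : V →ₗ[ℂ] V) (sg : ℂ) {W : Type} [AddCommGroup W] [Module ℂ W] (i : W →ₗ[ℂ] V) :
    Prop where
  inj : ∀ x, ‖i x‖ = 0 → x = 0
  ker : ∀ x, ‖D (i x)‖ = 0
  par : ∀ x, Eqv (e (i x)) (sg • i x)
  sur : ∀ w : ℕ → V, CauchySeq w → (∀ k, Eqv (e (w k)) (sg • w k)) →
    Tendsto (fun k => ‖D (w k)‖) atTop (𝓝 0) → ∃ x, Tendsto (fun k => ‖w k - i x‖) atTop (𝓝 0)

theorem Par.eqv (h : Dk D e) {sg : ℂ} (hs : sg * sg = 1) {W : Type} [AddCommGroup W] [Module ℂ W]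
    {i : W →ₗ[ℂ] V} (p : Par D e sg i) : Nonempty (W ≃ₗ[ℂ] Hm (Gr D) (ex e) sg) := by
  let c : W →ₗ[ℂ] Completion V := (Completion.toComplL : V →L[ℂ] Completion V).toLinearMap ∘ₗ i
  have hc : ∀ x, c x = (i x : V) := fun x => rfl
  have h1 : ∀ x, c x ∈ Hm (Gr D) (ex e) sg := fun x => by
    have e1 : (D (i x) : Completion V) = 0 := by rw [← norm_eq_zero, Completion.norm_coe, p.ker]
    have e2 := h.mem (i x)
    rw [e1, smul_zero] at e2
    exact ⟨e2, by rw [hc, h.exc, (p.par x).coe, Completion.coe_smul]⟩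
  refine ⟨LinearEquiv.ofBijective (c.codRestrict _ h1) ⟨?_, fun u => ?_⟩⟩
  · refine (injective_iff_map_eq_zero _).2 fun x hx => p.inj x ?_
    rw [← Completion.norm_coe, ← hc, norm_eq_zero]
    exact congrArg Subtype.val hx
  · obtain ⟨w, w1, w2⟩ := h.app u.2.1
    have t1 : Tendsto (fun k => (((2 : ℂ)⁻¹ • (w k + sg • e (w k)) : V) : Completion V)) atTop
        (𝓝 u) := by
      have := (w1.add ((((ex e).continuous.tendsto _).comp w1).const_smul sg)).const_smul (2 : ℂ)⁻¹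
      rw [u.2.2, smul_smul, hs, one_smul, ← two_smul ℂ, smul_smul, inv_mul_cancel₀ two_ne_zero,
        one_smul] at this
      exact this.congr fun k => by
        simp only [Function.comp, h.exc, Completion.coe_smul, Completion.coe_add]
    have t2 : Tendsto (fun k => ‖D ((2 : ℂ)⁻¹ • (w k + sg • e (w k)))‖) atTop (𝓝 0) := by
      have w3 : Tendsto (fun k => (D (w k) : Completion V)) atTop (𝓝 0) := by
        simpa [smul_smul] using w2.const_smul (-Complex.I)
      have := ((w3.sub ((((ex e).continuous.tendsto _).comp w3).const_smul sg)).const_smul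
        (2 : ℂ)⁻¹).norm
      rw [map_zero, smul_zero, sub_zero, smul_zero, norm_zero] at this
      refine this.congr fun k => ?_
      rw [← Completion.norm_coe (D _)]
      simp only [Function.comp, h.exc, (h.od _).coe, map_smul, map_add, Completion.coe_smul,
        Completion.coe_add, Completion.coe_neg, smul_neg, sub_neg_eq_add]
    obtain ⟨x, hx⟩ := p.sur (fun k => (2 : ℂ)⁻¹ • (w k + sg • e (w k)))
      ((Completion.isUniformInducing_coe V).cauchy_map_iff.1 (by rw [map_map]; exact t1.cauchySeq))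
      (fun k y => by
        simp only [map_smul, map_add, inner_smul_right, inner_add_right, h.sq _ y]
        linear_combination (-(2 : ℂ)⁻¹ * ⟪y, e (w k)⟫_ℂ) * hs) t2
    refine ⟨x, Subtype.ext (tendsto_nhds_unique (tendsto_iff_norm_sub_tendsto_zero.2
      (hx.congr fun k => ?_)) t1)⟩
    rw [← Completion.norm_coe, Completion.coe_sub]
    rfl

theorem Par.fin (h : Dk D e) {sg : ℂ} (hs : sg * sg = 1) {W : Type} [AddCommGroup W] [Module ℂ W]
    {i : W →ₗ[ℂ] V} (p : Par D e sg i) : FiniteDimensional ℂ W := by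
  obtain ⟨q⟩ := p.eqv h hs
  have := IDX29.fin h.odd.cp (ex e) sg
  exact q.symm.finiteDimensional

theorem idx_eq (h : Dk D e) {W1 W2 : Type} [AddCommGroup W1] [Module ℂ W1] [AddCommGroup W2]
    [Module ℂ W2] {i1 : W1 →ₗ[ℂ] V} {i2 : W2 →ₗ[ℂ] V} (p1 : Par D e 1 i1) (p2 : Par D e (-1) i2) :
    idx D e = (finrank ℂ W1 : ℤ) - finrank ℂ W2 := by
  obtain ⟨q1⟩ := p1.eqv h (by simp)
  obtain ⟨q2⟩ := p2.eqv h (by simp)
  rw [q1.finrank_eq, q2.finrank_eq, idx, ind]

end one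

/-- Smooth Koszul trick: a non-zero index gives approximate kernels for infinitely many `a`. -/
theorem pre {V : ℕ → Type} [∀ b, SeminormedAddCommGroup (V b)] [∀ b, InnerProductSpace ℂ (V b)]
    {D e : ∀ b, V b →ₗ[ℂ] V b} {N : ℕ} {s : ∀ b, Fin N → V b →ₗ[ℂ] V (b + 1)}
    {t : ∀ b, Fin N → V (b + 1) →ₗ[ℂ] V b} (dk : ∀ b, Dk (D b) (e b))
    (ad : ∀ b j x y, ⟪s b j x, y⟫_ℂ = ⟪x, t b j y⟫_ℂ)
    (me : ∀ b j x, Eqv (e (b + 1) (s b j x)) (s b j (e b x)))
    (mm : ∀ b i j x, Eqv (s (b + 1) i (s b j x)) (s (b + 1) j (s b i x)))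
    (tm : ∀ b i j x, Eqv (s b i (t b j x)) (t (b + 1) j (s (b + 1) i x)))
    (one : ∀ b x, Eqv (∑ j, t b j (s b j x)) x)
    (cm : ∀ b j, ∃ C : ℝ, ∀ w, ‖D (b + 1) (s b j w) - s b j (D b w)‖ ≤ C * ‖w‖)
    {b : ℕ} (h : idx (D b) (e b) ≠ 0) (b0 : ℕ) :
    ∃ a, b0 ≤ a ∧ ∀ d > 0, ∃ w : V a, ‖w‖ = 1 ∧ ‖D a w‖ < d := by
  have s1 : ∀ b j x, ‖s b j x‖ ≤ 1 * ‖x‖ := fun b j x => by
    have e1 := congrArg Complex.re (one b x x)
    simp only [inner_sum, ← ad, Complex.re_sum] at e1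
    have e2 : ∀ {a} (y : V a), (⟪y, y⟫_ℂ).re = ‖y‖ ^ 2 := fun y => inner_self_eq_norm_sq (𝕜 := ℂ) y
    simp only [e2] at e1
    rw [one_mul]
    refine (sq_le_sq₀ (norm_nonneg _) (norm_nonneg _)).1 (e1 ▸ ?_)
    exact Finset.single_le_sum (f := fun j => ‖s b j x‖ ^ 2) (fun _ _ => sq_nonneg _) (Finset.mem_univ j)
  have t1 : ∀ b j x, ‖t b j x‖ ≤ 1 * ‖x‖ := fun b j x => by
    have e1 : ‖t b j x‖ ^ 2 ≤ ‖s b j (t b j x)‖ * ‖x‖ := by
      rw [← inner_self_eq_norm_sq (𝕜 := ℂ), ← ad]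
      exact re_inner_le_norm _ _
    have e2 := mul_le_mul_of_nonneg_right (s1 b j (t b j x)) (norm_nonneg x)
    by_contra! hc
    nlinarith [norm_nonneg x]
  have sc := fun b j => ex_coe (s1 b j)
  have tc := fun b j => ex_coe (t1 b j)
  by_contra! hc
  refine h (Fam.koszul (H := fun b => Completion (V b)) (m := fun b j => ex (s b j))
    (mt := fun b j => ex (t b j)) (fun b => (dk b).odd) (fun b => (dk b).iv) (fun b j x y => ?_)
    (fun b j x => ?_) (fun b i j x => ?_) (fun b i j x => ?_) (fun b x => ?_) (fun b j => ?_)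
    (b0 := b0) (fun a ha => ?_) b)
  · refine Completion.induction_on₂ x y (isClosed_eq (by fun_prop) (by fun_prop)) fun x y => ?_
    rw [sc, tc, Completion.inner_coe, Completion.inner_coe, ad]
  · refine Completion.induction_on x (isClosed_eq (by fun_prop) (by fun_prop)) fun x => ?_
    rw [sc, (dk _).exc, (dk _).exc, sc, (me b j x).coe]
  · refine Completion.induction_on x (isClosed_eq (by fun_prop) (by fun_prop)) fun x => ?_
    rw [sc, sc, sc, sc, (mm b i j x).coe]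
  · refine Completion.induction_on x (isClosed_eq (by fun_prop) (by fun_prop)) fun x => ?_
    rw [tc, sc, sc, tc, (tm b i j x).coe]
  · refine Completion.induction_on x (isClosed_eq (by fun_prop) (by fun_prop)) fun x => ?_
    simp only [sc, tc]
    rw [← (one b x).coe]
    exact (map_sum (Completion.toComplL : V b →L[ℂ] Completion (V b)) _ _).symm
  · obtain ⟨C, hC⟩ := cm b j
    refine ⟨|C|, fun u f hu v g hv => ?_⟩
    obtain ⟨w, w1, w2⟩ := (dk b).app hu
    have c1 := ((ex (s b j)).continuous.tendsto _).comp w1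
    have c2 := ((ex (s b j)).continuous.tendsto _).comp w2
    refine le_of_tendsto_of_tendsto' ((tendsto_const_nhds.inner c1).sub
      (tendsto_const_nhds.inner c2)).norm ((w1.norm.const_mul |C|).mul_const ‖v‖) fun k => ?_
    simp only [Function.comp, map_smul, sc, inner_smul_right]
    rw [hv, ← mul_sub, ← inner_sub_right, ← Completion.coe_sub, norm_mul, Complex.norm_I, one_mul,
      Completion.norm_coe, mul_comm]
    refine (norm_inner_le_norm _ _).trans (mul_le_mul_of_nonneg_left ?_ (norm_nonneg _))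
    rw [Completion.norm_coe]
    exact (hC _).trans (mul_le_mul_of_nonneg_right (le_abs_self C) (norm_nonneg _))
  · by_contra h0
    obtain ⟨d, d0, hd⟩ := hc a ha
    obtain ⟨w, w1, w2⟩ := (dk a).near h0 d0
    exact (hd w w1).not_gt w2

end Pool.Agent.Lib.IDX29
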