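import Mathlib

/-! The index of a self-adjoint odd relation with compact resolvent. -/

open Set Module Metric
open scoped InnerProductSpace

noncomputable section

namespace Pool.Agent.Lib.IDX29

section fred

variable {H : Type} [NormedAddCommGroup H] [InnerProductSpace ℂ H] [CompleteSpace H]

/-- The cokernel of `1 - K` is not larger than the kernel. -/
theorem fred {K : H →L[ℂ] H} (hK : IsCompactOperator K) (Z N : Submodule ℂ H) [FiniteDimensional ℂ Z]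
    [FiniteDimensional ℂ N] (hZ : ∀ x, x ∈ Z ↔ K x = x) (hN : ∀ y ∈ N, ∀ x, ⟪y, x - K x⟫_ℂ = 0) :
    finrank ℂ N ≤ finrank ℂ Z := by
  by_contra! h
  obtain ⟨L, hL⟩ := finrank_le_iff_exists_linearMap.1 h.le
  let P : H →L[ℂ] H := N.subtypeL ∘L LinearMap.toContinuousLinearMap L ∘L Z.orthogonalProjectionOnto
  have hP : IsCompactOperator P :=
    (((isCompactOperator_id_iff_finiteDimensional (𝕜 := ℂ)).2 inferInstance :
      IsCompactOperator (id : Z → Z)).comp_clm Z.orthogonalProjectionOnto).clm_comp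
      (N.subtypeL ∘L LinearMap.toContinuousLinearMap L)
  have hPN : ∀ x, P x ∈ N := fun x => (L _).2
  have h1 : ¬ End.HasEigenvalue ((K - P : H →L[ℂ] H) : End ℂ H) 1 := fun he => by
    obtain ⟨x, hx⟩ := he.exists_hasEigenvector
    have e : K x - P x = x := by simpa using hx.apply_eq_smul
    have e1 : x - K x = -P x := by linear_combination (norm := module) -e
    have e2 := hN _ (hPN x) x
    rw [e1, inner_neg_right, neg_eq_zero, inner_self_eq_zero] at e2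
    have hx' : x ∈ Z := (hZ x).2 (by rw [e2, sub_zero] at e; exact e)
    have e3 : L ⟨x, hx'⟩ = 0 := by
      have : Z.orthogonalProjectionOnto x = ⟨x, hx'⟩ :=
        Z.orthogonalProjectionOnto_mem_subspace_eq_self ⟨x, hx'⟩
      rw [← this]
      exact Subtype.ext e2
    exact hx.2 (congrArg Subtype.val (hL (e3.trans (map_zero L).symm)))
  have h2 := ((hK.sub hP : IsCompactOperator (K - P : H →L[ℂ] H)).hasEigenvalue_or_mem_resolventSet
    one_ne_zero).resolve_left h1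
  rw [spectrum.mem_resolventSet_iff, ContinuousLinearMap.isUnit_iff_bijective] at h2
  have h3 : (LinearMap.range L)ᗮ ≠ ⊥ := fun e => by
    have := Submodule.finrank_add_finrank_orthogonal (LinearMap.range L)
    rw [e, finrank_bot, LinearMap.finrank_range_of_inj hL] at this
    omega
  obtain ⟨y, hy, hy0⟩ := Submodule.exists_mem_ne_zero_of_ne_bot h3
  obtain ⟨x, hx⟩ := h2.2 y
  have e : (y : H) = x - K x + P x := by
    rw [← hx]
    simp [sub_add]
  have e2 : ⟪(y : H), P x⟫_ℂ = 0 :=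
    Submodule.inner_left_of_mem_orthogonal (K := LinearMap.range L) ⟨_, rfl⟩ hy
  have e3 : ⟪(y : H), (y : H)⟫_ℂ = 0 := by
    conv_lhs => arg 3; rw [e]
    rw [inner_add_right, hN _ y.2, e2, add_zero]
  exact hy0 (Subtype.ext (inner_self_eq_zero.1 e3))

end fred

section defs

variable {H : Type} [NormedAddCommGroup H] [InnerProductSpace ℂ H]

/-- A self-adjoint relation. -/
def Sa (G : Submodule ℂ (H × H)) : Prop :=
  ∀ u f, (u, f) ∈ G ↔ ∀ v g, (v, g) ∈ G → ⟪f, v⟫_ℂ = ⟪u, g⟫_ℂ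

/-- The unit ball of the graph norm is totally bounded. -/
def Cp (G : Submodule ℂ (H × H)) : Prop :=
  TotallyBounded {u | ∃ f, (u, f) ∈ G ∧ ‖u‖ ≤ 1 ∧ ‖f‖ ≤ 1}

/-- The harmonic elements in an eigenspace of `ε`. -/
def Hm (G : Submodule ℂ (H × H)) (ε : H →L[ℂ] H) (s : ℂ) : Submodule ℂ H where
  carrier := {u | (u, 0) ∈ G ∧ ε u = s • u}
  zero_mem' := ⟨G.zero_mem, by simp⟩
  add_mem' := fun {a b} ha hb => ⟨by simpa using G.add_mem ha.1 hb.1, by
    rw [map_add, ha.2, hb.2, smul_add]⟩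
  smul_mem' := fun c a ha => ⟨by simpa using G.smul_mem c ha.1, by
    rw [map_smul, ha.2, smul_comm]⟩

/-- The index. -/
def ind (G : Submodule ℂ (H × H)) (ε : H →L[ℂ] H) : ℤ :=
  (finrank ℂ (Hm G ε 1) : ℤ) - finrank ℂ (Hm G ε (-1))

/-- An odd self-adjoint relation with compact resolvent. -/
structure Od (G : Submodule ℂ (H × H)) (ε : H →L[ℂ] H) : Prop where
  sa : Sa G
  cp : Cp G
  od : ∀ u f, (u, f) ∈ G → (ε u, -ε f) ∈ G

/-- A self-adjoint involution. -/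
structure Iv (ε : H →L[ℂ] H) : Prop where
  sy : ∀ x y, ⟪ε x, y⟫_ℂ = ⟪x, ε y⟫_ℂ
  sq : ∀ x, ε (ε x) = x

theorem Iv.neg {ε : H →L[ℂ] H} (h : Iv ε) : Iv (-ε) :=
  ⟨fun x y => by simp [h.sy], fun x => by simp [h.sq]⟩

theorem Iv.nrm {ε : H →L[ℂ] H} (h : Iv ε) (x : H) : ‖ε x‖ = ‖x‖ := by
  rw [@norm_eq_sqrt_re_inner ℂ, h.sy, h.sq, ← norm_eq_sqrt_re_inner]

theorem Od.neg {G : Submodule ℂ (H × H)} {ε : H →L[ℂ] H} (h : Od G ε) : Od G (-ε) :=
  ⟨h.sa, h.cp, fun u f hu => by simpa using G.neg_mem (h.od u f hu)⟩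

theorem hm_neg (G : Submodule ℂ (H × H)) (ε : H →L[ℂ] H) (s : ℂ) : Hm G (-ε) s = Hm G ε (-s) := by
  ext u
  refine and_congr_right fun _ => ?_
  rw [neg_smul, neg_apply, neg_eq_iff_eq_neg]

theorem fin [CompleteSpace H] {G : Submodule ℂ (H × H)} (h : Cp G) (ε : H →L[ℂ] H) (s : ℂ) :
    FiniteDimensional ℂ (Hm G ε s) := by
  refine FiniteDimensional.of_totallyBounded_nhds_zero ℂ (closedBall_mem_nhds 0 one_pos) ?_
  refine (totallyBounded_preimage isUniformEmbedding_subtype_val.isUniformInducing h).subset ?_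
  exact fun u hu => ⟨0, u.2.1, by simpa using hu, by simp⟩

end defs

section zero

variable {H : Type} [NormedAddCommGroup H] [InnerProductSpace ℂ H] [CompleteSpace H]
  {G : Submodule ℂ (H × H)} {ε Φ : H →L[ℂ] H}

omit [CompleteSpace H] in
theorem low (hΦ : Iv Φ) {C : ℝ} (hC : ∀ u f, (u, f) ∈ G → |(⟪f, Φ u⟫_ℂ).re| ≤ C * ‖u‖ ^ 2) {T : ℝ}
    (hT : 2 * |C| + 1 ≤ T) {u f : H} (h : (u, f) ∈ G) : ‖u‖ ≤ ‖f + (T : ℂ) • Φ u‖ := by
  have a0 := abs_nonneg C
  have h1 := norm_add_sq (𝕜 := ℂ) f ((T : ℂ) • Φ u)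
  rw [norm_smul, hΦ.nrm, Complex.norm_real, Real.norm_of_nonneg (by linarith), inner_smul_right,
    RCLike.re_to_complex, Complex.re_ofReal_mul] at h1
  have h2 := (abs_le.1 ((hC u f h).trans
    (mul_le_mul_of_nonneg_right (le_abs_self C) (sq_nonneg _)))).1
  refine (sq_le_sq₀ (norm_nonneg _) (norm_nonneg _)).1 ?_
  have h3 : 0 ≤ T * (T - 2 * |C|) - 1 := by nlinarith
  nlinarith [sq_nonneg ‖f‖, mul_nonneg h3 (sq_nonneg ‖u‖),
    mul_le_mul_of_nonneg_left h2 (by linarith : 0 ≤ T)]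

theorem res (hG : Sa G) (hΦ : Iv Φ) {T : ℝ}
    (lo : ∀ u f, (u, f) ∈ G → ‖u‖ ≤ ‖f + (T : ℂ) • Φ u‖) :
    ∃ R : H →L[ℂ] H, (∀ y, (R y, y - (T : ℂ) • Φ (R y)) ∈ G ∧ ‖R y‖ ≤ ‖y‖) ∧
      ∀ u f, (u, f) ∈ G → R (f + (T : ℂ) • Φ u) = u := by
  have hc : IsClosed (G : Set (H × H)) := by
    have : (G : Set (H × H)) = ⋂ q ∈ G, {p : H × H | ⟪p.2, q.1⟫_ℂ = ⟪p.1, q.2⟫_ℂ} := by
      ext p
      simp only [mem_iInter, Prod.forall]
      exact hG p.1 p.2
    rw [this]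
    exact isClosed_biInter fun q _ => isClosed_eq (by fun_prop) (by fun_prop)
  have : CompleteSpace G := hc.completeSpace_coe
  let S : G →L[ℂ] H := (ContinuousLinearMap.snd ℂ H H +
    (T : ℂ) • Φ ∘L ContinuousLinearMap.fst ℂ H H) ∘L G.subtypeL
  have hS : ∀ p : G, S p = p.1.2 + (T : ℂ) • Φ p.1.1 := fun p => rfl
  have an : AntilipschitzWith ⟨1 + |T|, by positivity⟩ S :=
    ContinuousLinearMap.antilipschitz_of_bound S fun p => by
      have h1 : ‖p.1.1‖ ≤ ‖S p‖ := lo _ _ p.2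
      have h2 : ‖p.1.2‖ ≤ ‖S p‖ + |T| * ‖p.1.1‖ := by
        have e : p.1.2 = S p - (T : ℂ) • Φ p.1.1 := by rw [hS, add_sub_cancel_right]
        calc ‖p.1.2‖ = ‖S p - (T : ℂ) • Φ p.1.1‖ := congrArg _ e
          _ ≤ _ := norm_sub_le _ _
          _ = _ := by rw [norm_smul, hΦ.nrm, Complex.norm_real, Real.norm_eq_abs]
      have h3 := mul_le_mul_of_nonneg_left h1 (abs_nonneg T)
      have h4 := mul_nonneg (abs_nonneg T) (norm_nonneg (S p))
      change max ‖p.1.1‖ ‖p.1.2‖ ≤ (1 + |T|) * ‖S p‖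
      exact max_le (by linarith) (by linarith)
  have cl : IsClosed (LinearMap.range (S : G →ₗ[ℂ] H) : Set H) :=
    an.isClosed_range S.uniformContinuous
  have : CompleteSpace (LinearMap.range (S : G →ₗ[ℂ] H)) := cl.completeSpace_coe
  have su : LinearMap.range (S : G →ₗ[ℂ] H) = ⊤ := by
    rw [← Submodule.orthogonal_eq_bot_iff, eq_bot_iff]
    intro z hz
    have h1 : (z, -((T : ℂ) • Φ z)) ∈ G := (hG _ _).2 fun v g hv => by
      have h2 : ⟪z, g + (T : ℂ) • Φ v⟫_ℂ = 0 :=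
        Submodule.inner_left_of_mem_orthogonal (K := LinearMap.range (S : G →ₗ[ℂ] H)) ⟨⟨_, hv⟩, rfl⟩ hz
      rw [inner_add_right, inner_smul_right] at h2
      rw [inner_neg_left, inner_smul_left, Complex.conj_ofReal, hΦ.sy]
      linear_combination -h2
    have h3 := lo _ _ h1
    rw [neg_add_cancel, norm_zero] at h3
    exact norm_le_zero_iff.1 h3
  let e := ContinuousLinearEquiv.ofBijective S (LinearMap.ker_eq_bot.2 an.injective) su
  have he : ∀ y, S (e.symm y) = y := fun y => e.apply_symm_apply y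
  refine ⟨ContinuousLinearMap.fst ℂ H H ∘L G.subtypeL ∘L (e.symm : H →L[ℂ] G), fun y => ⟨?_, ?_⟩,
    fun u f h => congrArg (fun p : G => p.1.1) (e.symm_apply_apply ⟨(u, f), h⟩)⟩
  · have h1 : y - (T : ℂ) • Φ (e.symm y).1.1 = (e.symm y).1.2 := by
      rw [sub_eq_iff_eq_add, ← hS, he]
    change ((e.symm y).1.1, y - (T : ℂ) • Φ (e.symm y).1.1) ∈ G
    rw [h1]
    exact (e.symm y).2
  · have h1 := lo _ _ (e.symm y).2
    rw [← hS, he] at h1
    exact h1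

theorem half (hG : Od G ε) (hε : Iv ε) (hΦ : Iv Φ) (an : ∀ x, ε (Φ x) = -Φ (ε x)) {C : ℝ}
    (hC : ∀ u f, (u, f) ∈ G → |(⟪f, Φ u⟫_ℂ).re| ≤ C * ‖u‖ ^ 2) :
    finrank ℂ (Hm G ε (-1)) ≤ finrank ℂ (Hm G ε 1) := by
  obtain ⟨T, hT⟩ : ∃ T : ℝ, T = 2 * |C| + 1 := ⟨_, rfl⟩
  have T0 : 0 < T := by rw [hT]; positivity
  obtain ⟨R, h1, h2⟩ := res hG.sa hΦ (T := T) fun u f h => low hΦ hC hT.ge h
  have := fin hG.cp ε 1
  have := fin hG.cp ε (-1)
  have hR : IsCompactOperator R := by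
    refine ⟨_, hG.cp.closure.isCompact_of_isClosed isClosed_closure, ?_⟩
    refine Filter.mem_of_superset (closedBall_mem_nhds 0 (by positivity : 0 < 1 / (1 + T))) ?_
    intro y hy
    have hy' : ‖y‖ * (1 + T) ≤ 1 := by
      rwa [mem_closedBall_zero_iff, le_div_iff₀ (by positivity)] at hy
    have a1 := (h1 y).2
    have a2 := norm_nonneg y
    refine subset_closure ⟨_, (h1 y).1, by nlinarith, (norm_sub_le _ _).trans ?_⟩
    rw [norm_smul, hΦ.nrm, Complex.norm_real, Real.norm_of_nonneg T0.le]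
    nlinarith
  have od : ∀ y, R (ε y) = -ε (R y) := fun y => by
    have := h2 _ _ (hG.od _ _ (h1 y).1)
    rw [map_sub, map_smul, an, smul_neg, sub_neg_eq_add, neg_add, neg_add_cancel_right,
      map_neg] at this
    rw [← this, neg_neg]
  let π : H →L[ℂ] H := (2 : ℂ)⁻¹ • (1 - ε)
  have hπ : ∀ x, π x = (2 : ℂ)⁻¹ • (x - ε x) := fun x => rfl
  have p1 : ∀ x, ε (π x) = -π x := fun x => by
    rw [hπ, map_smul, map_sub, hε.sq, ← smul_neg, neg_sub]
  have p2 : ∀ x, ε x = -x → π x = x := fun x h => by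
    rw [hπ, h, sub_neg_eq_add, ← two_smul ℂ, smul_smul, inv_mul_cancel₀ two_ne_zero, one_smul]
  let K : H →L[ℂ] H := ((T : ℂ) • Φ) ∘L R ∘L π
  have hK : ∀ x, K x = (T : ℂ) • Φ (R (π x)) := fun x => rfl
  refine (fred (K := K) ((hR.comp_clm π).clm_comp ((T : ℂ) • Φ))
    ((Hm G ε 1).map (Φ : H →ₗ[ℂ] H)) _ (fun x => ⟨?_, fun h => ?_⟩) fun y hy x => ?_).trans
    (Submodule.finrank_map_le _ _)
  · rintro ⟨u, ⟨u1, u2⟩, rfl⟩
    have e := h2 _ _ u1
    rw [zero_add, map_smul] at e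
    change K (Φ u) = Φ u
    rw [hK, p2 _ (by rw [an, u2, one_smul]), ← map_smul, e]
  · have e1 : ε (R (π x)) = R (π x) := by
      have := od (π x)
      rw [p1, map_neg, neg_inj] at this
      exact this.symm
    have e2 : ε x = -x := by
      rw [← h, hK, map_smul, an, e1, smul_neg]
    rw [hK, p2 x e2] at h
    rw [p2 x e2] at e1
    have e3 := (h1 x).1
    rw [h, sub_self] at e3
    exact ⟨(T : ℂ) • R x, (Hm G ε 1).smul_mem _ ⟨e3, by rw [e1, one_smul]⟩,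
      (map_smul _ _ _).trans h⟩
  · have e1 := (hG.sa y 0).1 hy.1 _ _ (h1 (π x)).1
    rw [inner_zero_left, inner_sub_right, hπ, inner_smul_right, inner_sub_right, ← hε.sy, hy.2,
      neg_one_smul, inner_neg_left, ← hπ] at e1
    rw [hK, inner_sub_right]
    linear_combination -e1

/-- An odd involution which anticommutes with the relation up to a bounded term kills the index. -/
theorem zero (hG : Od G ε) (hε : Iv ε) (hΦ : Iv Φ) (an : ∀ x, ε (Φ x) = -Φ (ε x)) {C : ℝ}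
    (hC : ∀ u f, (u, f) ∈ G → |(⟪f, Φ u⟫_ℂ).re| ≤ C * ‖u‖ ^ 2) : ind G ε = 0 := by
  have h1 := half hG hε hΦ an hC
  have h2 := half hG.neg hε.neg hΦ (fun x => by simp [an]) hC
  rw [hm_neg, hm_neg, neg_neg] at h2
  rw [ind, le_antisymm h1 h2, sub_self]

end zero

section cone

variable {H : Type} [NormedAddCommGroup H] [InnerProductSpace ℂ H]

/-- The direct sum of two relations. -/
def sm (A B : Submodule ℂ (H × H)) : Submodule ℂ (WithLp 2 (H × H) × WithLp 2 (H × H)) where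
  carrier := {p | (p.1.fst, p.2.fst) ∈ A ∧ (p.1.snd, p.2.snd) ∈ B}
  zero_mem' := ⟨A.zero_mem, B.zero_mem⟩
  add_mem' := fun ha hb => ⟨A.add_mem ha.1 hb.1, B.add_mem ha.2 hb.2⟩
  smul_mem' := fun c _ ha => ⟨A.smul_mem c ha.1, B.smul_mem c ha.2⟩

/-- A block operator. -/
def bl (a b c d : H →L[ℂ] H) : WithLp 2 (H × H) →L[ℂ] WithLp 2 (H × H) :=
  ((WithLp.prodContinuousLinearEquiv 2 ℂ H H).symm : H × H →L[ℂ] WithLp 2 (H × H)) ∘L
    ((a.coprod b).prod (c.coprod d)) ∘L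
      (WithLp.prodContinuousLinearEquiv 2 ℂ H H : WithLp 2 (H × H) →L[ℂ] H × H)

theorem bl1 (a b c d : H →L[ℂ] H) (x : WithLp 2 (H × H)) :
    (bl a b c d x).fst = a x.fst + b x.snd := rfl

theorem bl2 (a b c d : H →L[ℂ] H) (x : WithLp 2 (H × H)) :
    (bl a b c d x).snd = c x.fst + d x.snd := rfl

omit [NormedAddCommGroup H] [InnerProductSpace ℂ H] in
theorem xt {x y : WithLp 2 (H × H)} (h1 : x.fst = y.fst) (h2 : x.snd = y.snd) : x = y :=
  WithLp.ofLp_injective 2 (Prod.ext h1 h2)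

theorem inn (x y : WithLp 2 (H × H)) : ⟪x, y⟫_ℂ = ⟪x.fst, y.fst⟫_ℂ + ⟪x.snd, y.snd⟫_ℂ := rfl

theorem sm_od [CompleteSpace H] {A B : Submodule ℂ (H × H)} {ε : H →L[ℂ] H} (hA : Od A ε)
    (hB : Od B ε) : Od (sm A B) (bl ε 0 0 (-ε)) := by
  refine ⟨fun u f => ⟨fun h v g hv => ?_, fun h => ⟨(hA.sa _ _).2 fun v g hv => ?_,
    (hB.sa _ _).2 fun v g hv => ?_⟩⟩, ?_, fun u f h => ⟨?_, ?_⟩⟩
  · rw [inn, inn, (hA.sa _ _).1 h.1 _ _ hv.1, (hB.sa _ _).1 h.2 _ _ hv.2]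
  · simpa [inn] using h (WithLp.toLp 2 (v, 0)) (WithLp.toLp 2 (g, 0)) ⟨hv, B.zero_mem⟩
  · simpa [inn] using h (WithLp.toLp 2 (0, v)) (WithLp.toLp 2 (0, g)) ⟨A.zero_mem, hv⟩
  · have := ((hA.cp.closure.isCompact_of_isClosed isClosed_closure).prod
      (hB.cp.closure.isCompact_of_isClosed isClosed_closure)).image
      (WithLp.prodContinuousLinearEquiv 2 ℂ H H).symm.continuous
    refine this.totallyBounded.subset ?_
    rintro u ⟨f, h, hu, hf⟩
    exact ⟨(u.fst, u.snd), ⟨subset_closure ⟨_, h.1, (WithLp.norm_fst_le H u).trans hu,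
      (WithLp.norm_fst_le H f).trans hf⟩, subset_closure ⟨_, h.2, (WithLp.norm_snd_le H u).trans hu,
      (WithLp.norm_snd_le H f).trans hf⟩⟩, rfl⟩
  · simpa [bl1] using hA.od _ _ h.1
  · simpa [bl2] using hB.neg.od _ _ h.2

theorem sm_rk {A B : Submodule ℂ (H × H)} (ε : H →L[ℂ] H) (s : ℂ) [FiniteDimensional ℂ (Hm A ε s)]
    [FiniteDimensional ℂ (Hm B ε (-s))] :
    finrank ℂ (Hm (sm A B) (bl ε 0 0 (-ε)) s) = finrank ℂ (Hm A ε s) + finrank ℂ (Hm B ε (-s)) := by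
  rw [← finrank_prod]
  refine LinearEquiv.finrank_eq
    { toFun := fun u => (⟨u.1.fst, u.2.1.1, by simpa [bl1] using congrArg WithLp.fst u.2.2⟩,
        ⟨u.1.snd, u.2.1.2, by
          have := congrArg WithLp.snd u.2.2
          rw [bl2] at this
          simpa [neg_eq_iff_eq_neg] using this⟩)
      map_add' := fun _ _ => rfl
      map_smul' := fun _ _ => rfl
      invFun := fun p => ⟨WithLp.toLp 2 (p.1.1, p.2.1), ⟨p.1.2.1, p.2.2.1⟩,
        xt (by simpa [bl1] using p.1.2.2) (by simpa [bl2, neg_eq_iff_eq_neg] using p.2.2.2)⟩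
      left_inv := fun _ => rfl
      right_inv := fun _ => rfl }

/-- Koszul data with `N` multipliers left; `m true` is the multiplier, `m false` its adjoint. -/
structure Dt (G : ℕ → Submodule ℂ (H × H)) (ε Φ : H →L[ℂ] H) {N : ℕ}
    (m : Bool → Fin N → H →L[ℂ] H) : Prop where
  od : ∀ b, Od (G b) ε
  iv : Iv ε
  sy : ∀ x y, ⟪Φ x, y⟫_ℂ = ⟪x, Φ y⟫_ℂ
  an : ∀ x, ε (Φ x) = -Φ (ε x)
  bd : ∀ b, ∃ C : ℝ, ∀ u f, (u, f) ∈ G b → |(⟪f, Φ u⟫_ℂ).re| ≤ C * ‖u‖ ^ 2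
  ad : ∀ a j x y, ⟪m a j x, y⟫_ℂ = ⟪x, m (!a) j y⟫_ℂ
  me : ∀ a j x, ε (m a j x) = m a j (ε x)
  mf : ∀ a j x, Φ (m a j x) = m a j (Φ x)
  mm : ∀ a i b j x, m a i (m b j x) = m b j (m a i x)
  one : ∀ x, Φ (Φ x) + ∑ j, m false j (m true j x) = x
  cm : ∀ b j, ∃ C : ℝ, ∀ u f, (u, f) ∈ G b → ∀ v g, (v, g) ∈ G (b + 1) →
    ‖⟪g, m true j u⟫_ℂ - ⟪v, m true j f⟫_ℂ‖ ≤ C * ‖u‖ * ‖v‖

theorem ab {x C p q P Q : ℝ} (h : x ≤ C * p * q) (p0 : 0 ≤ p) (q0 : 0 ≤ q) (hp : p ≤ P) (hq : q ≤ Q) :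
    x ≤ |C| * P * Q :=
  h.trans ((mul_le_mul_of_nonneg_right (mul_le_mul_of_nonneg_right (le_abs_self C) p0) q0).trans
    (by have := p0.trans hp; gcongr))

theorem Dt.step [CompleteSpace H] {G : ℕ → Submodule ℂ (H × H)} {ε Φ : H →L[ℂ] H} {N : ℕ}
    {m : Bool → Fin (N + 1) → H →L[ℂ] H} (h : Dt G ε Φ m) :
    Dt (fun b => sm (G (b + 1)) (G b)) (bl ε 0 0 (-ε)) (bl Φ (ε ∘L m true 0) (m false 0 ∘L ε) Φ)
      fun a j => bl (m a j.succ) 0 0 (m a j.succ) := by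
  have fe : ∀ x, Φ (ε x) = -ε (Φ x) := fun x => by rw [h.an, neg_neg]
  have f1 := WithLp.norm_fst_le (p := 2) H (β := H)
  have f2 := WithLp.norm_snd_le (p := 2) H (β := H)
  refine ⟨fun b => sm_od (h.od _) (h.od _), ⟨fun x y => ?_, fun x => xt ?_ ?_⟩, fun x y => ?_,
    fun x => xt ?_ ?_, fun b => ?_, fun a j x y => ?_, fun a j x => xt ?_ ?_, fun a j x => xt ?_ ?_,
    fun a i b j x => xt ?_ ?_, fun x => xt ?_ ?_, fun b j => ?_⟩
  · simp [bl1, bl2, h.iv.sy]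
  · simp [bl1, h.iv.sq]
  · simp [bl1, bl2, h.iv.sq]
  · simp only [inn, bl1, bl2, ContinuousLinearMap.comp_apply, inner_add_left, inner_add_right, h.sy,
      h.iv.sy, h.ad, Bool.not_true, Bool.not_false]
    ring
  · simp [bl1, bl2, h.an, h.me, h.iv.sq, add_comm]
  · simp [bl1, bl2, h.an, h.me, h.iv.sq, add_comm]
  · obtain ⟨C1, h1⟩ := h.bd (b + 1)
    obtain ⟨C2, h2⟩ := h.bd b
    obtain ⟨C3, h3⟩ := h.cm b 0
    refine ⟨|C1| + |C2| + |C3|, fun u f hu => ?_⟩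
    have a1 := ab ((h1 _ _ hu.1).trans_eq (by ring)) (norm_nonneg _) (norm_nonneg _) (f1 u) (f1 u)
    have a2 := ab ((h2 _ _ hu.2).trans_eq (by ring)) (norm_nonneg _) (norm_nonneg _) (f2 u) (f2 u)
    have a3 := ab (h3 _ _ hu.2 _ _ ((h.od _).od _ _ hu.1)) (norm_nonneg _) (norm_nonneg _) (f2 u)
      ((h.iv.nrm _).trans_le (f1 u))
    have a4 := (Complex.abs_re_le_norm _).trans a3
    have e : (⟪f.snd, m false 0 (ε u.fst)⟫_ℂ).re = (⟪ε u.fst, m true 0 f.snd⟫_ℂ).re := by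
      rw [← inner_conj_symm, Complex.conj_re, h.ad, Bool.not_false]
    rw [inner_neg_left, h.iv.sy, Complex.sub_re, Complex.neg_re, ← e] at a4
    simp only [inn, bl1, bl2, ContinuousLinearMap.comp_apply, inner_add_right, Complex.add_re]
    rw [abs_le] at a1 a2 a4 ⊢
    constructor <;> nlinarith [a1.1, a1.2, a2.1, a2.2, a4.1, a4.2]
  · simp [bl1, bl2, h.ad]
  · simp [bl1, bl2, h.me]
  · simp [bl1, bl2, h.me]
  · simp [bl1, bl2, h.me, h.mf, h.mm true 0]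
  · simp [bl1, bl2, h.me, h.mf, h.mm false 0]
  · simp [bl1, bl2, h.mm a i.succ]
  · simp [bl1, bl2, h.mm a i.succ]
  · have e := h.one x.fst
    rw [Fin.sum_univ_succ] at e
    have e2 : (∑ j : Fin N, bl (m false j.succ) 0 0 (m false j.succ)
        (bl (m true j.succ) 0 0 (m true j.succ) x)).fst = ∑ j : Fin N, m false j.succ (m true j.succ x.fst) :=
      (map_sum (WithLp.fstL 2 ℂ H H) _ _).trans (Finset.sum_congr rfl fun j _ => by simp [bl1])
    rw [WithLp.add_fst, e2]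
    simp only [bl1, bl2, ContinuousLinearMap.comp_apply, map_add, fe, h.me, h.mf, h.iv.sq, map_neg,
      h.mm true 0 false 0]
    linear_combination (norm := module) e
  · have e := h.one x.snd
    rw [Fin.sum_univ_succ] at e
    have e2 : (∑ j : Fin N, bl (m false j.succ) 0 0 (m false j.succ)
        (bl (m true j.succ) 0 0 (m true j.succ) x)).snd = ∑ j : Fin N, m false j.succ (m true j.succ x.snd) :=
      (map_sum (WithLp.sndL 2 ℂ H H) _ _).trans (Finset.sum_congr rfl fun j _ => by simp [bl2])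
    rw [WithLp.add_snd, e2]
    simp only [bl1, bl2, ContinuousLinearMap.comp_apply, map_add, fe, h.me, h.mf, h.iv.sq, map_neg]
    linear_combination (norm := module) e
  · obtain ⟨C1, h1⟩ := h.cm (b + 1) j.succ
    obtain ⟨C2, h2⟩ := h.cm b j.succ
    refine ⟨|C1| + |C2|, fun u f hu v g hv => ?_⟩
    have a1 := ab (h1 _ _ hu.1 _ _ hv.1) (norm_nonneg _) (norm_nonneg _) (f1 u) (f1 v)
    have a2 := ab (h2 _ _ hu.2 _ _ hv.2) (norm_nonneg _) (norm_nonneg _) (f2 u) (f2 v)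
    simp only [inn, bl1, bl2, zero_apply, add_zero, zero_add]
    rw [add_sub_add_comm]
    exact (norm_add_le _ _).trans (by linarith)

end cone

theorem key (b0 N : ℕ) : ∀ {H : Type} [NormedAddCommGroup H] [InnerProductSpace ℂ H] [CompleteSpace H]
    {G : ℕ → Submodule ℂ (H × H)} {ε Φ : H →L[ℂ] H} {m : Bool → Fin N → H →L[ℂ] H}, Dt G ε Φ m →
    (∀ b, b0 ≤ b → ind (G b) ε = 0) → ∀ b, ind (G b) ε = 0 := by
  induction N with
  | zero =>
    intro H _ _ _ G ε Φ m h _ b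
    obtain ⟨C, hC⟩ := h.bd b
    exact zero (h.od b) h.iv ⟨h.sy, fun x => by simpa using h.one x⟩ h.an hC
  | succ N ih =>
    intro H _ _ _ G ε Φ m h h0 b
    have e : ∀ b, ind (sm (G (b + 1)) (G b)) (bl ε 0 0 (-ε)) = ind (G (b + 1)) ε - ind (G b) ε :=
      fun b => by
        have := fun b s => fin (h.od b).cp ε s
        rw [ind, ind, ind, sm_rk, sm_rk, neg_neg]
        push_cast
        ring
    have e1 := ih h.step fun b hb => by rw [e, h0 b hb, h0 _ (by omega), sub_self]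
    have e2 : ∀ k, ind (G (b + k)) ε = ind (G b) ε := fun k => by
      induction k with
      | zero => rfl
      | succ k ik =>
        have := e1 (b + k)
        rw [e, sub_eq_zero] at this
        exact this.trans ik
    rw [← e2 b0, h0 _ (by omega)]

/-- Smooth Koszul trick: multipliers without common zero which intertwine the relations up to
bounded terms propagate the vanishing of the index from large `b` to all `b`. -/
theorem koszul {H : Type} [NormedAddCommGroup H] [InnerProductSpace ℂ H] [CompleteSpace H]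
    {G : ℕ → Submodule ℂ (H × H)} {ε : H →L[ℂ] H} {N : ℕ} {m mt : Fin N → H →L[ℂ] H}
    (od : ∀ b, Od (G b) ε) (iv : Iv ε) (ad : ∀ j x y, ⟪m j x, y⟫_ℂ = ⟪x, mt j y⟫_ℂ)
    (me : ∀ j x, ε (m j x) = m j (ε x)) (mm : ∀ i j x, m i (m j x) = m j (m i x))
    (tm : ∀ i j x, m i (mt j x) = mt j (m i x)) (one : ∀ x, ∑ j, mt j (m j x) = x)
    (cm : ∀ b j, ∃ C : ℝ, ∀ u f, (u, f) ∈ G b → ∀ v g, (v, g) ∈ G (b + 1) →
      ‖⟪g, m j u⟫_ℂ - ⟪v, m j f⟫_ℂ‖ ≤ C * ‖u‖ * ‖v‖)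
    {b0 : ℕ} (h0 : ∀ b, b0 ≤ b → ind (G b) ε = 0) (b : ℕ) : ind (G b) ε = 0 := by
  have ad' : ∀ j x y, ⟪mt j x, y⟫_ℂ = ⟪x, m j y⟫_ℂ := fun j x y => by
    rw [← inner_conj_symm, ← ad, inner_conj_symm]
  refine key b0 N (Φ := 0) (m := fun a => cond a m mt) ⟨od, iv, by simp, by simp,
    fun _ => ⟨0, by simp⟩, ?_, ?_, by simp, ?_, fun x => by simpa using one x, cm⟩ h0 b
  · rintro (_ | _)
    exacts [ad', ad]
  · rintro (_ | _)
    · exact fun j x => ext_inner_left ℂ fun y => by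
        change ⟪y, ε (mt j x)⟫_ℂ = ⟪y, mt j (ε x)⟫_ℂ
        rw [← iv.sy, ← ad, ← ad, ← iv.sy, me]
    · exact me
  · rintro (_ | _) i (_ | _) j x
    · exact ext_inner_left ℂ fun y => by
        change ⟪y, mt i (mt j x)⟫_ℂ = ⟪y, mt j (mt i x)⟫_ℂ
        rw [← ad, ← ad, ← ad, ← ad, mm]
    · exact (tm j i x).symm
    · exact tm i j x
    · exact mm i j x

end Pool.Agent.Lib.IDX29
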