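import Pool.Agent.Lib.IDX29.Abs

/-! The smooth Koszul trick for a family of Hilbert spaces. -/

open Set Module Metric
open scoped InnerProductSpace

noncomputable section

namespace Pool.Agent.Lib.IDX29.Fam

section cone

variable {H K H' K' : Type} [NormedAddCommGroup H] [InnerProductSpace ℂ H] [NormedAddCommGroup K]
  [InnerProductSpace ℂ K] [NormedAddCommGroup H'] [InnerProductSpace ℂ H'] [NormedAddCommGroup K']
  [InnerProductSpace ℂ K']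

/-- The direct sum of two relations. -/
def sm (A : Submodule ℂ (H × H)) (B : Submodule ℂ (K × K)) :
    Submodule ℂ (WithLp 2 (H × K) × WithLp 2 (H × K)) where
  carrier := {p | (p.1.fst, p.2.fst) ∈ A ∧ (p.1.snd, p.2.snd) ∈ B}
  zero_mem' := ⟨A.zero_mem, B.zero_mem⟩
  add_mem' := fun ha hb => ⟨A.add_mem ha.1 hb.1, B.add_mem ha.2 hb.2⟩
  smul_mem' := fun c _ ha => ⟨A.smul_mem c ha.1, B.smul_mem c ha.2⟩

/-- A block operator. -/
def bl (a : H →L[ℂ] H') (b : K →L[ℂ] H') (c : H →L[ℂ] K') (d : K →L[ℂ] K') :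
    WithLp 2 (H × K) →L[ℂ] WithLp 2 (H' × K') :=
  ((WithLp.prodContinuousLinearEquiv 2 ℂ H' K').symm : H' × K' →L[ℂ] WithLp 2 (H' × K')) ∘L
    ((a.coprod b).prod (c.coprod d)) ∘L
      (WithLp.prodContinuousLinearEquiv 2 ℂ H K : WithLp 2 (H × K) →L[ℂ] H × K)

theorem bl1 (a : H →L[ℂ] H') (b : K →L[ℂ] H') (c : H →L[ℂ] K') (d : K →L[ℂ] K')
    (x : WithLp 2 (H × K)) : (bl a b c d x).fst = a x.fst + b x.snd := rfl

theorem bl2 (a : H →L[ℂ] H') (b : K →L[ℂ] H') (c : H →L[ℂ] K') (d : K →L[ℂ] K')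
    (x : WithLp 2 (H × K)) : (bl a b c d x).snd = c x.fst + d x.snd := rfl

theorem xt {A B : Type} {x y : WithLp 2 (A × B)} (h1 : x.fst = y.fst) (h2 : x.snd = y.snd) : x = y :=
  WithLp.ofLp_injective 2 (Prod.ext h1 h2)

theorem inn (x y : WithLp 2 (H × K)) : ⟪x, y⟫_ℂ = ⟪x.fst, y.fst⟫_ℂ + ⟪x.snd, y.snd⟫_ℂ := rfl

variable {A : Submodule ℂ (H × H)} {B : Submodule ℂ (K × K)}

theorem sm_od [CompleteSpace H] [CompleteSpace K] {ε : H →L[ℂ] H} {η : K →L[ℂ] K} (hA : Od A ε)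
    (hB : Od B η) : Od (sm A B) (bl ε 0 0 (-η)) := by
  refine ⟨fun u f => ⟨fun h v g hv => ?_, fun h => ⟨(hA.sa _ _).2 fun v g hv => ?_,
    (hB.sa _ _).2 fun v g hv => ?_⟩⟩, ?_, fun u f h => ⟨?_, ?_⟩⟩
  · rw [inn, inn, (hA.sa _ _).1 h.1 _ _ hv.1, (hB.sa _ _).1 h.2 _ _ hv.2]
  · simpa [inn] using h (WithLp.toLp 2 (v, 0)) (WithLp.toLp 2 (g, 0)) ⟨hv, B.zero_mem⟩
  · simpa [inn] using h (WithLp.toLp 2 (0, v)) (WithLp.toLp 2 (0, g)) ⟨A.zero_mem, hv⟩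
  · have := ((hA.cp.closure.isCompact_of_isClosed isClosed_closure).prod
      (hB.cp.closure.isCompact_of_isClosed isClosed_closure)).image
      (WithLp.prodContinuousLinearEquiv 2 ℂ H K).symm.continuous
    refine this.totallyBounded.subset ?_
    rintro u ⟨f, h, hu, hf⟩
    exact ⟨(u.fst, u.snd), ⟨subset_closure ⟨_, h.1, (WithLp.norm_fst_le H u).trans hu,
      (WithLp.norm_fst_le H f).trans hf⟩, subset_closure ⟨_, h.2, (WithLp.norm_snd_le H u).trans hu,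
      (WithLp.norm_snd_le H f).trans hf⟩⟩, rfl⟩
  · simpa [bl1] using hA.od _ _ h.1
  · simpa [bl2] using hB.neg.od _ _ h.2

theorem sm_rk (ε : H →L[ℂ] H) (η : K →L[ℂ] K) (s : ℂ) [FiniteDimensional ℂ (Hm A ε s)]
    [FiniteDimensional ℂ (Hm B η (-s))] :
    finrank ℂ (Hm (sm A B) (bl ε 0 0 (-η)) s) = finrank ℂ (Hm A ε s) + finrank ℂ (Hm B η (-s)) := by
  rw [← finrank_prod]
  refine LinearEquiv.finrank_eq
    { toFun := fun u => (⟨u.1.fst, u.2.1.1, by simpa [bl1] using congrArg WithLp.fst u.2.2⟩,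
        ⟨u.1.snd, u.2.1.2, by
          have := congrArg WithLp.snd u.2.2
          rw [bl2] at this
          simpa [neg_eq_iff_eq_neg] using this⟩)
      map_add' := fun _ _ => rfl
      map_smul' := fun _ _ => rfl
      invFun := fun p => ⟨WithLp.toLp 2 (p.1.1, p.2.1), ⟨p.1.2.1, p.2.2.1⟩,
        xt (by simpa [bl1] using p.1.2.2) (by simpa [bl2, neg_eq_iff_eq_neg] using p.2.2.2)⟩
      left_inv := fun _ => rfl
      right_inv := fun _ => rfl }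

end cone

section step

variable {H : ℕ → Type} [∀ b, NormedAddCommGroup (H b)] [∀ b, InnerProductSpace ℂ (H b)]

/-- Koszul data with `N` multipliers left. -/
structure Dt (G : ∀ b, Submodule ℂ (H b × H b)) (ε Φ : ∀ b, H b →L[ℂ] H b) {N : ℕ}
    (m : ∀ b, Fin N → H b →L[ℂ] H (b + 1)) (mt : ∀ b, Fin N → H (b + 1) →L[ℂ] H b) : Prop where
  od : ∀ b, Od (G b) (ε b)
  iv : ∀ b, Iv (ε b)
  sy : ∀ b x y, ⟪Φ b x, y⟫_ℂ = ⟪x, Φ b y⟫_ℂ
  an : ∀ b x, ε b (Φ b x) = -Φ b (ε b x)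
  bd : ∀ b, ∃ C : ℝ, ∀ u f, (u, f) ∈ G b → |(⟪f, Φ b u⟫_ℂ).re| ≤ C * ‖u‖ ^ 2
  ad : ∀ b j x y, ⟪m b j x, y⟫_ℂ = ⟪x, mt b j y⟫_ℂ
  me : ∀ b j x, ε (b + 1) (m b j x) = m b j (ε b x)
  mf : ∀ b j x, Φ (b + 1) (m b j x) = m b j (Φ b x)
  mm : ∀ b i j x, m (b + 1) i (m b j x) = m (b + 1) j (m b i x)
  tm : ∀ b i j x, m b i (mt b j x) = mt (b + 1) j (m (b + 1) i x)
  one : ∀ b x, Φ b (Φ b x) + ∑ j, mt b j (m b j x) = x
  cm : ∀ b j, ∃ C : ℝ, ∀ u f, (u, f) ∈ G b → ∀ v g, (v, g) ∈ G (b + 1) →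
    ‖⟪g, m b j u⟫_ℂ - ⟪v, m b j f⟫_ℂ‖ ≤ C * ‖u‖ * ‖v‖

theorem Dt.step [∀ b, CompleteSpace (H b)] {G : ∀ b, Submodule ℂ (H b × H b)}
    {ε Φ : ∀ b, H b →L[ℂ] H b} {N : ℕ} {m : ∀ b, Fin (N + 1) → H b →L[ℂ] H (b + 1)}
    {mt : ∀ b, Fin (N + 1) → H (b + 1) →L[ℂ] H b} (h : Dt G ε Φ m mt) :
    Dt (H := fun b => WithLp 2 (H (b + 1) × H b)) (fun b => sm (G (b + 1)) (G b))
      (fun b => bl (ε (b + 1)) 0 0 (-ε b))
      (fun b => bl (Φ (b + 1)) (ε (b + 1) ∘L m b 0) (mt b 0 ∘L ε (b + 1)) (Φ b))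
      (fun b j => bl (m (b + 1) j.succ) 0 0 (m b j.succ))
      fun b j => bl (mt (b + 1) j.succ) 0 0 (mt b j.succ) := by
  have fe : ∀ b x, Φ b (ε b x) = -ε b (Φ b x) := fun b x => by rw [h.an, neg_neg]
  have ad' : ∀ b j x y, ⟪mt b j x, y⟫_ℂ = ⟪x, m b j y⟫_ℂ := fun b j x y => by
    rw [← inner_conj_symm, ← h.ad, inner_conj_symm]
  have te : ∀ b j x, ε b (mt b j x) = mt b j (ε (b + 1) x) := fun b j x =>
    ext_inner_left ℂ fun y => by rw [← (h.iv _).sy, ← h.ad, ← h.ad, ← (h.iv _).sy, h.me]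
  have tf : ∀ b j x, Φ b (mt b j x) = mt b j (Φ (b + 1) x) := fun b j x =>
    ext_inner_left ℂ fun y => by rw [← h.sy, ← h.ad, ← h.ad, ← h.sy, h.mf]
  have sq := fun b => (h.iv b).sq
  have f1 := fun b => WithLp.norm_fst_le (p := 2) (H (b + 1)) (β := H b)
  have f2 := fun b => WithLp.norm_snd_le (p := 2) (H (b + 1)) (β := H b)
  refine ⟨fun b => sm_od (h.od _) (h.od _), fun b => ⟨fun x y => ?_, fun x => xt ?_ ?_⟩,
    fun b x y => ?_, fun b x => xt ?_ ?_, fun b => ?_, fun b j x y => ?_, fun b j x => xt ?_ ?_,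
    fun b j x => xt ?_ ?_, fun b i j x => xt ?_ ?_, fun b i j x => xt ?_ ?_, fun b x => xt ?_ ?_,
    fun b j => ?_⟩
  · simp [bl1, bl2, (h.iv _).sy]
  · simp [bl1, sq]
  · simp [bl1, bl2, sq]
  · simp only [inn, bl1, bl2, ContinuousLinearMap.comp_apply, inner_add_left, inner_add_right, h.sy,
      (h.iv _).sy, h.ad, ad']
    ring
  · simp [bl1, bl2, h.an, h.me, sq, add_comm]
  · simp [bl1, bl2, h.an, te, sq, add_comm]
  · obtain ⟨C1, h1⟩ := h.bd (b + 1)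
    obtain ⟨C2, h2⟩ := h.bd b
    obtain ⟨C3, h3⟩ := h.cm b 0
    refine ⟨|C1| + |C2| + |C3|, fun u f hu => ?_⟩
    have a1 := ab ((h1 _ _ hu.1).trans_eq (by ring)) (norm_nonneg _) (norm_nonneg _) (f1 b u) (f1 b u)
    have a2 := ab ((h2 _ _ hu.2).trans_eq (by ring)) (norm_nonneg _) (norm_nonneg _) (f2 b u) (f2 b u)
    have a3 := ab (h3 _ _ hu.2 _ _ ((h.od _).od _ _ hu.1)) (norm_nonneg _) (norm_nonneg _) (f2 b u)
      (((h.iv _).nrm _).trans_le (f1 b u))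
    have a4 := (Complex.abs_re_le_norm _).trans a3
    have e : (⟪f.snd, mt b 0 (ε (b + 1) u.fst)⟫_ℂ).re = (⟪ε (b + 1) u.fst, m b 0 f.snd⟫_ℂ).re := by
      rw [← inner_conj_symm, Complex.conj_re, ad']
    rw [inner_neg_left, (h.iv _).sy, Complex.sub_re, Complex.neg_re, ← e] at a4
    simp only [inn, bl1, bl2, ContinuousLinearMap.comp_apply, inner_add_right, Complex.add_re]
    rw [abs_le] at a1 a2 a4 ⊢
    constructor <;> nlinarith [a1.1, a1.2, a2.1, a2.2, a4.1, a4.2]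
  · simp [bl1, bl2, h.ad]
  · simp [bl1, bl2, h.me]
  · simp [bl1, bl2, h.me]
  · simp [bl1, bl2, h.me, h.mf, h.mm b 0]
  · simp [bl1, bl2, h.me, h.mf, h.tm]
  · simp [bl1, bl2, h.mm _ i.succ]
  · simp [bl1, bl2, h.mm _ i.succ]
  · simp [bl1, bl2, h.tm]
  · simp [bl1, bl2, h.tm]
  · have e := h.one _ x.fst
    rw [Fin.sum_univ_succ] at e
    have e2 : (∑ j : Fin N, bl (mt (b + 1) j.succ) 0 0 (mt b j.succ)
        (bl (m (b + 1) j.succ) 0 0 (m b j.succ) x)).fst =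
          ∑ j : Fin N, mt (b + 1) j.succ (m (b + 1) j.succ x.fst) :=
      (map_sum (WithLp.fstL 2 ℂ _ _) _ _).trans (Finset.sum_congr rfl fun j _ => by simp [bl1])
    rw [WithLp.add_fst, e2]
    simp only [bl1, bl2, ContinuousLinearMap.comp_apply, map_add, fe, ← h.tm b 0 0, h.me, te, h.mf, sq,
      map_neg] at e ⊢
    linear_combination (norm := module) e
  · have e := h.one _ x.snd
    rw [Fin.sum_univ_succ] at e
    have e2 : (∑ j : Fin N, bl (mt (b + 1) j.succ) 0 0 (mt b j.succ)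
        (bl (m (b + 1) j.succ) 0 0 (m b j.succ) x)).snd = ∑ j : Fin N, mt b j.succ (m b j.succ x.snd) :=
      (map_sum (WithLp.sndL 2 ℂ _ _) _ _).trans (Finset.sum_congr rfl fun j _ => by simp [bl2])
    rw [WithLp.add_snd, e2]
    simp only [bl1, bl2, ContinuousLinearMap.comp_apply, map_add, fe, tf, sq, map_neg]
    linear_combination (norm := module) e
  · obtain ⟨C1, h1⟩ := h.cm (b + 1) j.succ
    obtain ⟨C2, h2⟩ := h.cm b j.succ
    refine ⟨|C1| + |C2|, fun u f hu v g hv => ?_⟩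
    have a1 := ab (h1 _ _ hu.1 _ _ hv.1) (norm_nonneg _) (norm_nonneg _) (f1 b u) (f1 _ v)
    have a2 := ab (h2 _ _ hu.2 _ _ hv.2) (norm_nonneg _) (norm_nonneg _) (f2 b u) (f2 _ v)
    simp only [inn, bl1, bl2, zero_apply, add_zero, zero_add]
    rw [add_sub_add_comm]
    exact (norm_add_le _ _).trans (by linarith)

end step

theorem key (b0 N : ℕ) : ∀ {H : ℕ → Type} [∀ b, NormedAddCommGroup (H b)]
    [∀ b, InnerProductSpace ℂ (H b)] [∀ b, CompleteSpace (H b)] {G : ∀ b, Submodule ℂ (H b × H b)}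
    {ε Φ : ∀ b, H b →L[ℂ] H b} {m : ∀ b, Fin N → H b →L[ℂ] H (b + 1)}
    {mt : ∀ b, Fin N → H (b + 1) →L[ℂ] H b}, Dt G ε Φ m mt →
    (∀ b, b0 ≤ b → ind (G b) (ε b) = 0) → ∀ b, ind (G b) (ε b) = 0 := by
  induction N with
  | zero =>
    intro H _ _ _ G ε Φ m mt h _ b
    obtain ⟨C, hC⟩ := h.bd b
    exact zero (h.od b) (h.iv b) ⟨h.sy b, fun x => by simpa using h.one b x⟩ (h.an b) hC
  | succ N ih =>
    intro H _ _ _ G ε Φ m mt h h0 b
    have e : ∀ b, ind (sm (G (b + 1)) (G b)) (bl (ε (b + 1)) 0 0 (-ε b)) =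
        ind (G (b + 1)) (ε (b + 1)) - ind (G b) (ε b) := fun b => by
      have := fun b s => fin (h.od b).cp (ε b) s
      rw [ind, ind, ind, sm_rk, sm_rk, neg_neg]
      push_cast
      ring
    have e1 := ih h.step fun b hb => by rw [e, h0 b hb, h0 _ (by omega), sub_self]
    have e2 : ∀ k, ind (G (b + k)) (ε (b + k)) = ind (G b) (ε b) := fun k => by
      induction k with
      | zero => rfl
      | succ k ik =>
        have := e1 (b + k)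
        rw [e, sub_eq_zero] at this
        exact this.trans ik
    rw [← e2 b0, h0 _ (by omega)]

/-- Smooth Koszul trick for a family of Hilbert spaces. -/
theorem koszul {H : ℕ → Type} [∀ b, NormedAddCommGroup (H b)] [∀ b, InnerProductSpace ℂ (H b)]
    [∀ b, CompleteSpace (H b)] {G : ∀ b, Submodule ℂ (H b × H b)} {ε : ∀ b, H b →L[ℂ] H b} {N : ℕ}
    {m : ∀ b, Fin N → H b →L[ℂ] H (b + 1)} {mt : ∀ b, Fin N → H (b + 1) →L[ℂ] H b}
    (od : ∀ b, Od (G b) (ε b)) (iv : ∀ b, Iv (ε b))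
    (ad : ∀ b j x y, ⟪m b j x, y⟫_ℂ = ⟪x, mt b j y⟫_ℂ)
    (me : ∀ b j x, ε (b + 1) (m b j x) = m b j (ε b x))
    (mm : ∀ b i j x, m (b + 1) i (m b j x) = m (b + 1) j (m b i x))
    (tm : ∀ b i j x, m b i (mt b j x) = mt (b + 1) j (m (b + 1) i x))
    (one : ∀ b x, ∑ j, mt b j (m b j x) = x)
    (cm : ∀ b j, ∃ C : ℝ, ∀ u f, (u, f) ∈ G b → ∀ v g, (v, g) ∈ G (b + 1) →
      ‖⟪g, m b j u⟫_ℂ - ⟪v, m b j f⟫_ℂ‖ ≤ C * ‖u‖ * ‖v‖)
    {b0 : ℕ} (h0 : ∀ b, b0 ≤ b → ind (G b) (ε b) = 0) (b : ℕ) : ind (G b) (ε b) = 0 :=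
  key b0 N (Φ := fun _ => 0) ⟨od, iv, by simp, by simp, fun _ => ⟨0, by simp⟩, ad, me, by simp, mm, tm,
    fun b x => by simpa using one b x, cm⟩ h0 b

end Pool.Agent.Lib.IDX29.Fam
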